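import Pool.Agent.V11227.JonesGn5

/-!
# Diagrams on surfaces with powers of a braid: almost all linking matrices

Diagrams (starting library `Pool.Agent.H891R2.Jones.Diagram`): `Diagram P` (oriented link diagrams with
marked points `P`; the arcs only say which marked points are joined, so these are diagrams of links in
thickened surfaces, that is, virtual link diagrams), `Diagram.fPoly` (the normalised bracket `(-A^{-3})^{w(D)} ⟨D⟩`),
`Diagram.IsClosed`, `Outer m` (the part of an oriented diagram outside a box through which `m` strands
run, with arbitrary directions `O.up`), `Outer.close` (fills the box with vertical strands).  Starting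
library `Pool.Agent.W639.RB.Defs`: `Letter m` (the letters `σ_i^{±1}` of the braid group on `m` strands).

Definitions of the starting library (`Pool.Agent.Y463.SK.Defs`, `Pool.Agent.Y463.RW.Defs`) for words
(lists of letters): `permW w` (the permutation of the strands), `powW w n` (the power `w^n`, `n ∈ ℤ`),
`IsPure w` (`permW w = 1`), `dia O w` (the diagram obtained by drawing `w` in the box of `O` and filling
the rest of the box with vertical strands), `multiW w v n = w_1^{n_1} v_1 w_2^{n_2} v_2 ⋯ w_k^{n_k} v_k`,
`prodW w u` (the product `w_{i_1}^{±1} ⋯ w_{i_n}^{±1}` given by the sequence `u` of `n` pairs `(i, ±)`).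

Definitions of `Pool.Agent.V11227`: `JL.cr w a b` (`JonesLk2`): the number of the letters `σ_i` minus the
number of the letters `σ_i⁻¹` of `w` at which the strands cross that start at the places `a` and `b`;
`GN.Pr m` (`JonesGn3`): the pairs `a < b` of strands; `GN.IsLk w l` (`JonesGn5`): `cr w a b = 2 l_{ab}`
for all `a < b`, that is, if `w` is pure and all strands run upwards, `l` is the matrix of the linking
numbers of the strands of `w`.

Outline.  By the starting library, either all the members of such a family, for the exponents in one
residue class modulo `r`, have the same polynomial `F`, or at most `m!` of them.  The first alternative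
is impossible if a certain element of the integral group ring of the symmetric group, namely
`∑_{a<b} l_{ab} (c_{ab} + (a b))` with `c_{ab} = 2` for strands with the same direction and `c_{ab} = -1`
otherwise, is not a zero divisor (the operator of the pure braid in the Temperley-Lieb algebra is
`1 + (A + 1) b`, and modulo `A + 1` a multiple of this element gives `b` up to the writhe factor).  This
is the case if a determinant, a homogeneous polynomial of degree `m!` in the `l_{ab}`, is not zero.  It is
not the zero polynomial: among three strands two have the same direction, and for their full twist the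
element is `2 + (a b)`, a divisor of `3`.  So the exceptional matrices are rare by the Schwartz-Zippel
lemma.
-/

set_option autoImplicit false

namespace Pool.Agent.Results.MP_7bc610_gt.GenericLinkingSurfaces

open Finset LaurentPolynomial Pool.Agent.H891R2.Jones Pool.Agent.W639.RB Pool.Agent.Y463.SK
  Pool.Agent.Y463.RW Pool.Agent.V11227.GN

open Classical in
/-- **Powers of braids with almost arbitrary linking numbers in diagrams on surfaces.**  Let `m ≥ 3`.

(1) There is a set `B` of integral matrices `(l_{ab})`, `a < b`, with the following properties (2) and
(3), which contains at most `2^m m! (2N+1)^(C(m,2)-1)` of the `(2N+1)^C(m,2)` matrices with entries in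
`[-N, N]`, for every `N`.  Every matrix is the linking matrix of a pure braid word, and every pure braid
word has a linking matrix.

(2) Let `O` be the part of an oriented link diagram on any surface (a virtual link diagram) outside a box through which `m` strands run, with
arbitrary directions, let `u, w, v` be braid words on `m` strands and `r ≥ 1` such that `w^r` is pure and
its linking matrix is not in `B`.  Let `D(n)`, `n ∈ ℤ`, be the diagram with the braid `u w^n v` in the
box.  Then every Laurent polynomial `F`, for instance `F = 1`, is the normalised bracket of at most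
`r m!` of the diagrams `D(n)`; and among any `Z` of the `D(n)` there are at least `Z / (r m!)` different
normalised brackets.

(3) Let `w_1, …, w_k` and `v_1, …, v_k` be words and `r_1, …, r_k ≥ 0`, and suppose that for one `i` the
word `w_i^{r_i}` is pure and its linking matrix is not in `B`.  For `s, q ∈ ℤ^k` let `D(q)` be the
diagram with the braid `w_1^{n_1} v_1 ⋯ w_k^{n_k} v_k`, `n_j = r_j q_j + s_j`, in the box of `O`.  Then
for all finite sets `A_1, …, A_k` of integers and every `F` at most `m! ∏_{j ≠ i} |A_j|` of the
`∏_j |A_j|` diagrams `D(q)`, `q ∈ A_1 × ⋯ × A_k`, have the normalised bracket `F`.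

(4) If `O`, with vertical strands in the box, is a diagram of a link and the permutation of a word `x`
preserves the directions of the strands, then `dia O x` is a diagram of a link. -/
theorem result (m : ℕ) (hm : 3 ≤ m) : ∃ B : Set (Pr m → ℤ),
    (∀ N : ℕ, {l : Pr m → ℤ | l ∈ B ∧ ∀ p, |l p| ≤ N}.Finite ∧
      {l : Pr m → ℤ | l ∈ B ∧ ∀ p, |l p| ≤ N}.ncard ≤
        2 ^ m * m.factorial * (2 * N + 1) ^ (m.choose 2 - 1)) ∧
    Fintype.card (Pr m) = m.choose 2 ∧
    (∀ l : Pr m → ℤ, ∃ w : List (Letter m), IsPure w ∧ IsLk w l) ∧
    (∀ w : List (Letter m), IsPure w → ∃ l : Pr m → ℤ, IsLk w l) ∧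
    ∀ O : Outer m,
      (∀ (u w v : List (Letter m)) (r : ℕ), 0 < r → IsPure (powW w r) →
        (∃ l, l ∉ B ∧ IsLk (powW w r) l) →
        (∀ F : ℤ[T;T⁻¹], {n : ℤ | (dia O (u ++ (powW w n ++ v))).fPoly = F}.Finite ∧
          {n : ℤ | (dia O (u ++ (powW w n ++ v))).fPoly = F}.ncard ≤ r * m.factorial) ∧
        (∀ Z : Finset ℤ, Z.card ≤
          r * m.factorial * (Z.image fun n => (dia O (u ++ (powW w n ++ v))).fPoly).card)) ∧
      (∀ (k : ℕ) (w v : Fin k → List (Letter m)) (r : Fin k → ℕ) (i : Fin k),
        IsPure (powW (w i) (r i)) → (∃ l, l ∉ B ∧ IsLk (powW (w i) (r i)) l) →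
        ∀ (s : Fin k → ℤ) (F : ℤ[T;T⁻¹]) (A : Fin k → Finset ℤ),
          ((Fintype.piFinset A).filter
            (fun q => (dia O (multiW w v (fun i => r i * q i + s i))).fPoly = F)).card ≤
              m.factorial * ∏ j ∈ univ.erase i, (A j).card) ∧
      (O.close.IsClosed → ∀ x : List (Letter m), (∀ j, O.up (permW x j) = O.up j) → (dia O x).IsClosed) := by
  refine ⟨Bad m, bad_count_all m, card_pr, fun l => exists_matrix l, fun w hw => exists_lk w hw,
    fun O => ⟨fun u w v r hr hp h => ?_, fun k w v r i hp h s F A => ?_, ?_⟩⟩
  · obtain ⟨l, hb, hl⟩ := h
    have hN := noAll_good hm (draw O (toN u)) (powW w r) hp l hl hb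
    exact ⟨fun F => na_one (by omega) O u w v r hr hp hN F, fun Z =>
      na_image (by omega) O u w v r hr hp hN Z⟩
  · obtain ⟨l, hb, hl⟩ := h
    exact na_multi (by omega) O w v r i hp
      (fun pre => noAll_good hm (draw O (toN pre)) _ hp l hl hb) s F A
  · exact fun hO x hx => dia_closed O hO x hx

end Pool.Agent.Results.MP_7bc610_gt.GenericLinkingSurfaces
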