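import Pool.Agent.V11227.JonesLk9

/-!
# Random elements of groups of braids with a linked pure element, drawn in a diagram on a surface

Diagrams (starting library `Pool.Agent.H891R2.Jones.Diagram`): `Diagram P` (oriented link diagrams with
marked points `P`; the arcs only say which marked points are joined, so these are diagrams of links in
thickened surfaces, that is, virtual link diagrams), `Diagram.fPoly` (the normalised bracket
`(-A^{-3})^{w(D)} ⟨D⟩`, all loops count equally), `Diagram.IsClosed` (the pieces fit together to closed
oriented curves), `Outer m` (the part of an oriented diagram outside a box through which `m` strands run,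
with arbitrary directions `O.up`), `Outer.close` (fills the box with vertical strands).  Starting library
`Pool.Agent.W639.RB.Defs`: `Letter m` (the letters `σ_i^{±1}` of the braid group on `m` strands).

Definitions of the starting library (`Pool.Agent.Y463.SK.Defs`, `Pool.Agent.Y463.RW.Defs`) for words
(lists of letters): `permW w` (the permutation of the strands), `powW w n` (the power `w^n`, `n ∈ ℤ`),
`IsPure w` (`permW w = 1`), `dia O w` (the diagram obtained by drawing `w` in the box of `O` and filling
the rest of the box with vertical strands), `prodW w u` (the product `w_{i_1}^{±1} ⋯ w_{i_n}^{±1}` given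
by the sequence `u` of `n` pairs `(i, ±)`).

Definitions of `Pool.Agent.V11227`: `JL.cr w a b` (`JonesLk2`): the number of the letters `σ_i` minus the
number of the letters `σ_i⁻¹` of `w` at which the strands cross that start at the places `a` and `b`;
for a pure word this is twice the linking number of these strands if they have the same direction, and
minus twice the linking number otherwise.  `JL.Linked O w` (`JonesLk7`):
`∑_{a,b} |cr w a b| < |∑_{a,b} c_{a,b} cr w a b|`, where `c_{a,b} = 2` if the strands `a` and `b` of the
box have the same direction and `c_{a,b} = -1` otherwise.  `JP.positive w`, `JP.negative w`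
(`JonesPos3`): the numbers of the letters `σ_i` and `σ_i⁻¹` of `w`.  `JP.Mostly O u w r`
(`JonesPos3`): three times the contribution `c` of `w^r` to the writhe of the diagram `dia O (u w^r)` is
larger than `r (positive w + 3 negative w)`, or `-3 c` is larger than `r (negative w + 3 positive w)`.
-/

set_option autoImplicit false

namespace Pool.Agent.Results.MP_7bc610_gt.LinkedSurfaceSubgroups

open Finset LaurentPolynomial Pool.Agent.H891R2.Jones Pool.Agent.W639.RB Pool.Agent.Y463.SK
  Pool.Agent.Y463.RW Pool.Agent.V11227.JP Pool.Agent.V11227.JL

open Classical in
/-- **Random elements of groups with a linked pure element in a diagram on a surface.**  For all `m, s ≥ 1`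
there is a constant `C`, depending only on `m` and `s`, with the following property.

Let `O` be the part of an oriented link diagram on any closed surface (a virtual link diagram) outside a
box through which `m` strands run, with arbitrary directions, and let `w_1, …, w_s` be braid words on
`m` strands such that some product `g` of the words `w_i^{±1}` satisfies one of the following conditions:

* `g^r` is pure for some `r ≥ 0` and satisfies the linking condition `Linked O (g^r)`, or
* `g^r` is pure for some `r ≥ 0`, all the linking numbers of the strands of `g^r` have the same sign or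
  are zero, and two strands with the same direction have a nonzero linking number, or
* all strands of the box run upwards and `g` has more than three times as many positive as negative
  letters or the other way round (for instance, `g` is a nonempty positive word), or
* `g^r` is pure and `Mostly O [] g r` holds for some `r ≥ 0`.

Then for every braid word `v`, every Laurent polynomial `F` (for instance `1`) and all `n ≥ 1`, at most
`C n^{-c} (2 s)^n` of the `(2 s)^n` products `u = w_{i_1}^{±1} ⋯ w_{i_n}^{±1}` give a diagram, with the
braid `u v` in the box, whose Jones polynomial is `F`, where `c = 1 / (3 · 2^(m! 2^m + 2))`.  If the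
permutations of the words `w_i` and of `v` preserve the directions of the strands (for instance, if all strands run upwards), then all these
diagrams are diagrams of links on the surface. -/
theorem result (m s : ℕ) (hm : 0 < m) (hs : 0 < s) : ∃ C : ℝ, 0 < C ∧
    ∀ (O : Outer m) (w : Fin s → List (Letter m)), O.close.IsClosed →
      (∃ (l : ℕ) (a : Fin l → Fin s × Bool),
        (∃ r : ℕ, IsPure (powW (prodW w a) r) ∧ Linked O (powW (prodW w a) r)) ∨
        (∃ (r : ℕ) (ε : ℤ), IsPure (powW (prodW w a) r) ∧ (ε = 1 ∨ ε = -1) ∧
          (∀ i j, 0 ≤ ε * ((if O.up i = O.up j then 1 else -1) * cr (powW (prodW w a) r) i j)) ∧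
          ∃ i j, O.up i = O.up j ∧ cr (powW (prodW w a) r) i j ≠ 0) ∨
        ((∀ j, O.up j = true) ∧ (3 * negative (prodW w a) < positive (prodW w a) ∨
          3 * positive (prodW w a) < negative (prodW w a))) ∨
        ∃ r : ℕ, IsPure (powW (prodW w a) r) ∧ Mostly O [] (prodW w a) r) →
      (∀ (v : List (Letter m)) (F : ℤ[T;T⁻¹]) (n : ℕ), 0 < n →
        ((univ.filter (fun u : Fin n → Fin s × Bool =>
          (dia O (prodW w u ++ v)).fPoly = F)).card : ℝ) ≤
            C * (n : ℝ) ^ (-(1 / (3 * 2 ^ (m.factorial * 2 ^ m + 2))) : ℝ) * (2 * s : ℝ) ^ n) ∧
      (∀ v : List (Letter m), (∀ i j, O.up (permW (w i) j) = O.up j) →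
        (∀ j, O.up (permW v j) = O.up j) → ∀ (n : ℕ) (u : Fin n → Fin s × Bool),
          (dia O (prodW w u ++ v)).IsClosed) := by
  refine ⟨m.factorial * Cst (2 * s : ℝ) (dimB m + 1), mul_pos (by positivity)
    (lt_of_lt_of_le one_pos (Cst_ge _ _)), fun O w hO h => ⟨fun v F n hn => ?_, fun v hw hv n u =>
      dia_closed O hO _ fun j => ?_⟩⟩
  · obtain ⟨l, a, h⟩ := h
    obtain ⟨r, hr, hM⟩ : ∃ r : ℕ, IsPure (powW (prodW w a) r) ∧ Linked O (powW (prodW w a) r) := by
      rcases h with h | ⟨r, ε, hp, hε, h1, h2⟩ | ⟨hO, h⟩ | ⟨r, hp, h⟩
      · exact h
      · exact ⟨r, hp, linked_of_sign O _ ε hε h1 h2⟩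
      · obtain ⟨r, hr0, hr⟩ := exists_pure (prodW w a)
        exact ⟨r, hr, linked_of_letters O (fun i j => by rw [hO i, hO j]) _ r hr0 h⟩
      · exact ⟨r, hp, linkedAt_of_mostly O [] _ r h⟩
    exact lk_random_all hm hs O w l a r hr hM v F n hn
  · exact dir_prod O w hw v hv u j

end Pool.Agent.Results.MP_7bc610_gt.LinkedSurfaceSubgroups
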